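import Mathlib
import Pool.Agent.R114.SIC.Alltop

set_option autoImplicit false

namespace Pool.Agent.Results.MP_d0f9e0_co.ApproximateFiducials

variable {F : Type} [Field F] [Fintype F] [DecidableEq F]

/-- The displacement operators of the Weyl-Heisenberg group of the finite field `F` on `ℂ^F`,
`(D_{a,b} v)(x) = ψ(b x) v(x - a)`, for an additive character `ψ` of `F`. -/
noncomputable def displacement (ψ : AddChar F ℂ) (a b : F) (v : EuclideanSpace ℂ F) :
    EuclideanSpace ℂ F :=
  WithLp.toLp 2 (fun x => ψ (b * x) * v (x - a))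

/-- The vector with entries `ψ(x³)` for `x ≠ 0` and with entry `√(1 + √q)` at `x = 0`. -/
noncomputable def alltopSpike (ψ : AddChar F ℂ) : EuclideanSpace ℂ F :=
  WithLp.toLp 2 (fun x => if x = 0 then ((√(1 + √(Fintype.card F : ℝ)) : ℝ) : ℂ) else ψ (x ^ 3))

/-- The unit vector in the direction of `alltopSpike ψ`. -/
noncomputable def fiducial (ψ : AddChar F ℂ) : EuclideanSpace ℂ F :=
  ((1 / √(Fintype.card F + √(Fintype.card F : ℝ)) : ℝ) : ℂ) • alltopSpike ψ

/-- **Approximate fiducial vectors.** Let `F` be a finite field with `q` elements and of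
characteristic at least `5`, and let `ψ` be a nontrivial additive character of `F`. The `q²`
displaced vectors `D_{a,b} φ` of the explicit unit vector `φ = fiducial ψ` of `ℂ^q` are unit
vectors which form an exactly tight frame, and `(q + 1) |⟨D_{a,b} φ, D_{a',b'} φ⟩|²` differs from
`1` by at most `8 q^(-1/4)` for any two different ones. -/
theorem result (h6 : (6 : F) ≠ 0) (ψ : AddChar F ℂ) (hψ : ψ ≠ 1) :
    (∀ a b, ‖displacement ψ a b (fiducial ψ)‖ = 1) ∧
    (∀ a b a' b', (a, b) ≠ (a', b') →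
      |((Fintype.card F : ℝ) + 1) *
        ‖(inner ℂ (displacement ψ a b (fiducial ψ)) (displacement ψ a' b' (fiducial ψ)) : ℂ)‖ ^ 2
          - 1| ≤ 8 * (Fintype.card F : ℝ) ^ (-(1 / 4) : ℝ)) ∧
    ∀ u : EuclideanSpace ℂ F,
      ∑ a, ∑ b, ‖(inner ℂ (displacement ψ a b (fiducial ψ)) u : ℂ)‖ ^ 2 =
        (Fintype.card F : ℝ) * ‖u‖ ^ 2 := by
  have h2 : (2 : F) ≠ 0 := by
    intro h
    apply h6
    have : (6 : F) = 2 * 3 := by norm_num
    rw [this, h, zero_mul]
  have h3 : (3 : F) ≠ 0 := by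
    intro h
    apply h6
    have : (6 : F) = 2 * 3 := by norm_num
    rw [this, h, mul_zero]
  have hprim : ψ.IsPrimitive := AddChar.IsPrimitive.of_ne_one hψ
  have hq : (0 : ℝ) < Fintype.card F := by exact_mod_cast Fintype.card_pos
  have h1 : ‖fiducial ψ‖ = 1 := Pool.Agent.R114.SIC.Alltop.norm_fid ψ
  refine ⟨fun a b => ?_, fun a b a' b' h => ?_, fun u => ?_⟩
  · rw [← h1]
    exact Pool.Agent.R114.SIC.Alltop.norm_disp ψ a b (fiducial ψ)
  · refine (Pool.Agent.R114.SIC.Alltop.near_equiangular ψ hprim h2 h3 a b a' b' h).trans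
      (le_of_eq ?_)
    rw [div_eq_mul_inv, Real.sqrt_eq_rpow, Real.sqrt_eq_rpow, ← Real.rpow_mul hq.le,
      ← Real.rpow_neg hq.le]
    norm_num
  · have := Pool.Agent.R114.SIC.Alltop.tight ψ hprim (fiducial ψ) u
    rw [h1, one_pow, mul_one] at this
    exact this

end Pool.Agent.Results.MP_d0f9e0_co.ApproximateFiducials
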