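import Mathlib
import Pool.Agent.R114.SIC.ImagSpan

set_option autoImplicit false

namespace Pool.Agent.Results.MP_d0f9e0_co.ImaginarySubsystems

/-- `x` is a maximal equiangular tight frame in `ℂ^d`. -/
def IsMaximalETF (d : ℕ) (x : Fin (d ^ 2) → EuclideanSpace ℂ (Fin d)) : Prop :=
  (∀ i, ‖x i‖ = 1) ∧ ∀ i j, i ≠ j → ‖inner ℂ (x i) (x j)‖ = 1 / Real.sqrt ((d : ℝ) + 1)

/-- The triple product `⟨x_i,x_j⟩⟨x_j,x_k⟩⟨x_k,x_i⟩`. -/
noncomputable def tripleProduct {d : ℕ} (x : Fin (d ^ 2) → EuclideanSpace ℂ (Fin d))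
    (i j k : Fin (d ^ 2)) : ℂ :=
  inner ℂ (x i) (x j) * inner ℂ (x j) (x k) * inner ℂ (x k) (x i)

/-- All triple products of three distinct lines in `S` are purely imaginary. -/
def IsImaginarySystem {d : ℕ} (x : Fin (d ^ 2) → EuclideanSpace ℂ (Fin d))
    (S : Finset (Fin (d ^ 2))) : Prop :=
  ∀ i ∈ S, ∀ j ∈ S, ∀ k ∈ S, i ≠ j → j ≠ k → k ≠ i → (tripleProduct x i j k).re = 0

/-- The number `⟨c_i x_i, c_j x_j⟩`. -/
noncomputable def scaled {d : ℕ} (x : Fin (d ^ 2) → EuclideanSpace ℂ (Fin d))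
    (c : Fin (d ^ 2) → ℂ) (i j : Fin (d ^ 2)) : ℂ :=
  inner ℂ (c i • x i) (c j • x j)

/-- The numbers `c_i`, `i ∈ S`, have modulus one, and the vectors `c_i x_i`, `i ∈ S`, have purely
imaginary inner products (for different indices). -/
def ImaginaryPhases {d : ℕ} (x : Fin (d ^ 2) → EuclideanSpace ℂ (Fin d))
    (S : Finset (Fin (d ^ 2))) (c : Fin (d ^ 2) → ℂ) : Prop :=
  (∀ i ∈ S, ‖c i‖ = 1) ∧ ∀ i ∈ S, ∀ j ∈ S, i ≠ j → (scaled x c i j).re = 0

/-- The span of the vectors in `S`. -/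
noncomputable def spanOf {d : ℕ} (x : Fin (d ^ 2) → EuclideanSpace ℂ (Fin d))
    (S : Finset (Fin (d ^ 2))) : Submodule ℂ (EuclideanSpace ℂ (Fin d)) :=
  Submodule.span ℂ (x '' (S : Set (Fin (d ^ 2))))

/-- The structure of an imaginary system `S` with the largest possible number `d + 2` of lines:
`4` divides `d + 2`, the vectors of `S` span a subspace of dimension `(d + 2)/2` in which they form
a tight frame, and `∑ ⟨u, c_j x_j⟩⟨w, c_j x_j⟩ = 0` for all vectors `u`, `w`, for the phases `c`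
which make their inner products imaginary. -/
def LargestStructure (d : ℕ) (x : Fin (d ^ 2) → EuclideanSpace ℂ (Fin d))
    (S : Finset (Fin (d ^ 2))) : Prop :=
  4 ∣ d + 2 ∧ 2 * Module.finrank ℂ (spanOf x S) = d + 2 ∧
  (∀ v ∈ spanOf x S, ∑ j ∈ S, (inner ℂ (x j) v : ℂ) • x j = (2 : ℂ) • v) ∧
  ∀ c, ImaginaryPhases x S c → ∀ u w : EuclideanSpace ℂ (Fin d),
    ∑ j ∈ S, (inner ℂ u (c j • x j) : ℂ) * inner ℂ w (c j • x j) = 0

/-- **Imaginary subsystems of a maximal ETF.** In a maximal ETF in `ℂ^d` at most `d + 2` lines have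
all the triple products of three distinct ones purely imaginary; if `d + 2` lines do, they have the
structure above, in particular `4` divides `d + 2`, so that for the other dimensions there are at
most `d + 1`. A set of lines is such a system exactly when suitable multiples of its vectors by
phases have purely imaginary inner products. More generally at most `1 + (d+1)/δ` lines have, after
multiplication by phases, pairwise inner products whose squares have real part at most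
`-δ/(d+1)`. -/
theorem result (d : ℕ) (x : Fin (d ^ 2) → EuclideanSpace ℂ (Fin d)) (hx : IsMaximalETF d x) :
    (∀ S, IsImaginarySystem x S → S.card ≤ d + 2 ∧ (S.card = d + 2 → LargestStructure d x S)) ∧
    (∀ S, IsImaginarySystem x S ↔ ∃ c, ImaginaryPhases x S c) ∧
    ∀ (S : Finset (Fin (d ^ 2))) (c : Fin (d ^ 2) → ℂ) (δ : ℝ), 0 < δ → (∀ i ∈ S, ‖c i‖ = 1) →
      (∀ i ∈ S, ∀ j ∈ S, i ≠ j → ((d : ℝ) + 1) * ((scaled x c i j) ^ 2).re ≤ -δ) →
      (S.card : ℝ) ≤ 1 + ((d : ℝ) + 1) / δ := by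
  have h1 : ∀ S, IsImaginarySystem x S ↔ ∃ c, ImaginaryPhases x S c :=
    fun S => Pool.Agent.R114.SIC.imagSys_iff hx S
  refine ⟨fun S hS => ?_, h1,
    fun S c δ hδ hc h => Pool.Agent.R114.SIC.near_imag hx S c hc δ hδ h⟩
  obtain ⟨c, hc⟩ := (h1 S).mp hS
  refine ⟨Pool.Agent.R114.SIC.imag_card_le hx hc, fun hcard =>
    ⟨Pool.Agent.R114.SIC.imag_four_dvd hx hc hcard,
      Pool.Agent.R114.SIC.imag_finrank hx hc hcard, fun v hv => ?_,
      fun c' hc' u w => Pool.Agent.R114.SIC.imag_vanish hx hc' hcard u w⟩⟩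
  have := Pool.Agent.R114.SIC.imag_span_frame hx hc hcard v hv
  rwa [Pool.Agent.R114.SIC.FS_apply] at this

end Pool.Agent.Results.MP_d0f9e0_co.ImaginarySubsystems
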