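import Mathlib
import Pool.Agent.R114.SIC.NearMin

set_option autoImplicit false

namespace Pool.Agent.Results.MP_d0f9e0_co.NearMinimalDesigns

/-- The number `⟨a, v⟩⟨v, b⟩ = a^* (v v^*) b`. -/
noncomputable def entry {d : ℕ} (v a b : EuclideanSpace ℂ (Fin d)) : ℂ :=
  inner ℂ a v * inner ℂ v b

/-- The identity `∑ w_i (x_i x_i^*) ⊗ (x_i x_i^*) = (1 + swap) / (d (d + 1))`, tested on all
quadruples of vectors. -/
def TwoDesignIdentity {d N : ℕ} (x : Fin N → EuclideanSpace ℂ (Fin d)) (w : Fin N → ℝ) : Prop :=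
  ∀ a b c e : EuclideanSpace ℂ (Fin d),
    ∑ i, (w i : ℂ) * (entry (x i) a b * entry (x i) c e) =
      (1 / ((d : ℂ) * (d + 1))) * (inner ℂ a b * inner ℂ c e + inner ℂ a e * inner ℂ c b)

/-- The unit vectors `x i` with the positive weights `w i` of sum `1` form a weighted complex
projective two-design of `ℂ^d`. -/
def IsWeightedTwoDesign {d N : ℕ} (x : Fin N → EuclideanSpace ℂ (Fin d)) (w : Fin N → ℝ) : Prop :=
  (∀ i, ‖x i‖ = 1) ∧ (∀ i, 0 < w i) ∧ ∑ i, w i = 1 ∧ TwoDesignIdentity x w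

/-- All weights are `1/d²`, up to a relative error `ε`. -/
def NearWeights (d : ℕ) {N : ℕ} (w : Fin N → ℝ) (ε : ℝ) : Prop :=
  ∀ i, |(d : ℝ) ^ 2 * w i - 1| ≤ ε

/-- `|⟨x_i, x_j⟩|²` is `1/(d+1)` up to a relative error `ε`, for all pairs `i ≠ j` not inside `B`. -/
def NearAngles {d N : ℕ} (x : Fin N → EuclideanSpace ℂ (Fin d)) (B : Finset (Fin N)) (ε : ℝ) :
    Prop :=
  ∀ i j, i ≠ j → ¬ (i ∈ B ∧ j ∈ B) → |((d : ℝ) + 1) * ‖inner ℂ (x i) (x j)‖ ^ 2 - 1| ≤ ε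

/-- Exact two-designs which are almost maximal ETFs, in every dimension. There are constants
`c, C > 0` such that every `ℂ^d`, `d ≥ 1`, has an exact weighted complex projective two-design
`(x, w)` with `N ≤ (1 + C d^(-c)) d²` vectors, with `|d² w_i - 1| ≤ C d^(-c)` for all `i`, and with
`|(d + 1) |⟨x_i, x_j⟩|² - 1| ≤ C d^(-c)` for all pairs `i ≠ j` which are not inside a certain set
`B` of `d` indices. -/
theorem result : ∃ c C : ℝ, 0 < c ∧ 0 < C ∧ ∀ d : ℕ, 1 ≤ d →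
    ∃ (N : ℕ) (x : Fin N → EuclideanSpace ℂ (Fin d)) (w : Fin N → ℝ) (B : Finset (Fin N)),
      IsWeightedTwoDesign x w ∧ (N : ℝ) ≤ (1 + C * (d : ℝ) ^ (-c)) * (d : ℝ) ^ 2 ∧ B.card = d ∧
      NearWeights d w (C * (d : ℝ) ^ (-c)) ∧ NearAngles x B (C * (d : ℝ) ^ (-c)) :=
  Pool.Agent.R114.SIC.near_minimal

end Pool.Agent.Results.MP_d0f9e0_co.NearMinimalDesigns
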