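import Mathlib
import Pool.Agent.R114.SIC.RealNear

set_option autoImplicit false

namespace Pool.Agent.Results.MP_d0f9e0_co.RealSubsystems

/-- `x` is a maximal equiangular tight frame in `ℂ^d`. -/
def IsMaximalETF (d : ℕ) (x : Fin (d ^ 2) → EuclideanSpace ℂ (Fin d)) : Prop :=
  (∀ i, ‖x i‖ = 1) ∧ ∀ i j, i ≠ j → ‖inner ℂ (x i) (x j)‖ = 1 / Real.sqrt ((d : ℝ) + 1)

/-- The triple product `⟨x_i,x_j⟩⟨x_j,x_k⟩⟨x_k,x_i⟩`. -/
noncomputable def tripleProduct {d : ℕ} (x : Fin (d ^ 2) → EuclideanSpace ℂ (Fin d))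
    (i j k : Fin (d ^ 2)) : ℂ :=
  inner ℂ (x i) (x j) * inner ℂ (x j) (x k) * inner ℂ (x k) (x i)

/-- All triple products of the lines in `S` are real. -/
def IsRealSystem {d : ℕ} (x : Fin (d ^ 2) → EuclideanSpace ℂ (Fin d)) (S : Finset (Fin (d ^ 2))) :
    Prop :=
  ∀ i ∈ S, ∀ j ∈ S, ∀ k ∈ S, (tripleProduct x i j k).im = 0

/-- The number `⟨c_i x_i, c_j x_j⟩`. -/
noncomputable def scaled {d : ℕ} (x : Fin (d ^ 2) → EuclideanSpace ℂ (Fin d))
    (c c' : Fin (d ^ 2) → ℂ) (i j : Fin (d ^ 2)) : ℂ :=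
  inner ℂ (c i • x i) (c' j • x j)

/-- The numbers `c_i`, `i ∈ S`, have modulus one, and the vectors `c_i x_i`, `i ∈ S`, have real
inner products. -/
def RealPhases {d : ℕ} (x : Fin (d ^ 2) → EuclideanSpace ℂ (Fin d)) (S : Finset (Fin (d ^ 2)))
    (c : Fin (d ^ 2) → ℂ) : Prop :=
  (∀ i ∈ S, ‖c i‖ = 1) ∧ ∀ i ∈ S, ∀ j ∈ S, (scaled x c c i j).im = 0

/-- The size bounds. A real system has at most `d` lines; more generally, at most `1 + (d-1)/δ`
lines have, after multiplication by phases, pairwise inner products whose squares have real part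
at least `δ/(d+1)`. -/
def SizeBound (d : ℕ) (x : Fin (d ^ 2) → EuclideanSpace ℂ (Fin d)) : Prop :=
  (∀ S, IsRealSystem x S → S.card ≤ d) ∧
  ∀ (S : Finset (Fin (d ^ 2))) (c : Fin (d ^ 2) → ℂ) (δ : ℝ), 0 < δ → (∀ i ∈ S, ‖c i‖ = 1) →
    (∀ i ∈ S, ∀ j ∈ S, i ≠ j → δ ≤ ((d : ℝ) + 1) * ((scaled x c c i j) ^ 2).re) →
    (S.card : ℝ) ≤ 1 + ((d : ℝ) - 1) / δ

/-- Near orthogonality of disjoint real systems: the squares of the inner products between the
(real) vectors of one and those of the other nearly cancel. -/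
def CrossBound (d : ℕ) (x : Fin (d ^ 2) → EuclideanSpace ℂ (Fin d)) : Prop :=
  ∀ (S T : Finset (Fin (d ^ 2))) (c c' : Fin (d ^ 2) → ℂ), RealPhases x S c → RealPhases x T c' →
    Disjoint S T → ‖∑ i ∈ S, ∑ j ∈ T, scaled x c c' i j ^ 2‖ ^ 2 ≤
      ((S.card : ℝ) * ((d : ℝ) - S.card) / ((d : ℝ) + 1)) *
        ((T.card : ℝ) * ((d : ℝ) - T.card) / ((d : ℝ) + 1))

/-- If a real system has `d` lines, the squares of its inner products with any other line cancel. -/
def EqualityCase (d : ℕ) (x : Fin (d ^ 2) → EuclideanSpace ℂ (Fin d)) : Prop :=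
  ∀ (S : Finset (Fin (d ^ 2))) (c : Fin (d ^ 2) → ℂ), RealPhases x S c → S.card = d →
    ∀ i ∉ S, ∑ j ∈ S, (inner ℂ (x i) (c j • x j) : ℂ) ^ 2 = 0

/-- **Real subsystems of a maximal ETF.** In a maximal ETF in `ℂ^d`, `d ≥ 1`, at most `d` lines
have all their triple products real (so the `d²` lines are not the union of fewer than `d` real
systems); a set of lines is such a real system exactly when suitable multiples of its vectors by
phases have real inner products; and the size bound is stable, comes with a bound on the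
interaction of two disjoint real systems, and with a cancellation in the case of equality. -/
theorem result (d : ℕ) (hd : 1 ≤ d) (x : Fin (d ^ 2) → EuclideanSpace ℂ (Fin d))
    (hx : IsMaximalETF d x) :
    SizeBound d x ∧ (∀ S, IsRealSystem x S ↔ ∃ c, RealPhases x S c) ∧
    (∀ (n : ℕ) (S : Fin n → Finset (Fin (d ^ 2))), (∀ a, IsRealSystem x (S a)) →
      (∀ i, ∃ a, i ∈ S a) → d ≤ n) ∧
    CrossBound d x ∧ EqualityCase d x := by
  have h1 : ∀ S, IsRealSystem x S ↔ ∃ c, RealPhases x S c :=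
    fun S => Pool.Agent.R114.SIC.realSys_iff hx S
  have h2 : ∀ S, IsRealSystem x S → S.card ≤ d := by
    intro S hS
    obtain ⟨c, hc⟩ := (h1 S).mp hS
    exact Pool.Agent.R114.SIC.real_card_le hx hd hc
  refine ⟨⟨h2, fun S c δ hδ hc h => Pool.Agent.R114.SIC.near_real hx hd S c hc δ hδ h⟩, h1,
    fun n S hS hcov => ?_,
    fun S T c c' hc hc' hST => Pool.Agent.R114.SIC.real_cross hx hd hc hc' hST,
    fun S c hc hcard i hi => Pool.Agent.R114.SIC.real_eq hx hd hc hcard i hi⟩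
  have h3 : (Finset.univ : Finset (Fin (d ^ 2))) ⊆ Finset.univ.biUnion S := by
    intro i _
    obtain ⟨a, ha⟩ := hcov i
    exact Finset.mem_biUnion.mpr ⟨a, Finset.mem_univ _, ha⟩
  have h4 := (Finset.card_le_card h3).trans Finset.card_biUnion_le
  rw [Finset.card_univ, Fintype.card_fin] at h4
  have h5 : ∑ a : Fin n, (S a).card ≤ n * d := by
    have := Finset.sum_le_card_nsmul (Finset.univ : Finset (Fin n)) (fun a => (S a).card) d
      (fun a _ => h2 _ (hS a))
    simpa using this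
  have h6 : d * d ≤ n * d := by
    calc d * d = d ^ 2 := (sq d).symm
      _ ≤ n * d := h4.trans h5
  exact Nat.le_of_mul_le_mul_right h6 hd

end Pool.Agent.Results.MP_d0f9e0_co.RealSubsystems
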